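import Mathlib

open MeasureTheory Module Filter Topology Set

namespace Pool.Agent.Lib.Pd7404b

variable {ι : Type*} [Fintype ι]

/-- integer vectors as real vectors -/
def toR (m : ι → ℤ) : ι → ℝ := fun i => (m i : ℝ)

omit [Fintype ι] in
@[simp] lemma toR_apply (m : ι → ℤ) (i : ι) : toR m i = m i := rfl

/-- half open unit box with corner `m` -/
def box (m : ι → ℤ) : Set (ι → ℝ) := {x | ∀ i, x i ∈ Ioc (m i : ℝ) (m i + 1)}

lemma measurableSet_box (m : ι → ℤ) : MeasurableSet (box m) := by
  have : box m = Set.pi univ (fun i => Ioc (m i : ℝ) (m i + 1)) := by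
    ext x; simp [box]
  rw [this]
  exact MeasurableSet.univ_pi fun i => measurableSet_Ioc

omit [Fintype ι] in
lemma iUnion_box : (⋃ m : ι → ℤ, box m) = univ := by
  refine eq_univ_of_forall fun x => mem_iUnion.mpr ⟨fun i => ⌈x i⌉ - 1, fun i => ?_⟩
  constructor
  · push_cast
    linarith [Int.ceil_lt_add_one (x i)]
  · push_cast
    linarith [Int.le_ceil (x i)]

omit [Fintype ι] in
lemma disjoint_box : Pairwise (Function.onFun Disjoint (box : (ι → ℤ) → Set (ι → ℝ))) := by
  intro m m' hmm
  rw [Function.onFun, Set.disjoint_left]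
  intro x hx hx'
  apply hmm
  funext i
  have h1 := hx i
  have h2 := hx' i
  have h3 : (m i : ℝ) < m' i + 1 := lt_of_lt_of_le h1.1 h2.2
  have h4 : (m' i : ℝ) < m i + 1 := lt_of_lt_of_le h2.1 h1.2
  have h5 : m i < m' i + 1 := by exact_mod_cast h3
  have h6 : m' i < m i + 1 := by exact_mod_cast h4
  omega

lemma integral_box_shift {E : Type*} [NormedAddCommGroup E] [NormedSpace ℝ E]
    (F : (ι → ℝ) → E) (m : ι → ℤ) :
    ∫ x in box m, F x = ∫ x in box 0, F (x + toR m) := by
  have hmp : MeasurePreserving (fun x : ι → ℝ => x + toR m) volume volume :=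
    measurePreserving_add_right volume (toR m)
  have hemb : MeasurableEmbedding (fun x : ι → ℝ => x + toR m) :=
    measurableEmbedding_addRight (toR m)
  rw [← hmp.setIntegral_preimage_emb hemb F (box m)]
  congr 2
  ext x
  simp only [box, mem_preimage, mem_ofPred_eq, Pi.add_apply, toR_apply, Pi.zero_apply, mem_Ioc,
    Int.cast_zero, zero_add]
  refine forall_congr' fun i => ?_
  constructor
  · rintro ⟨h1, h2⟩; exact ⟨by linarith, by linarith⟩
  · rintro ⟨h1, h2⟩; exact ⟨by linarith, by linarith⟩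

lemma hasSum_integral_box {E : Type*} [NormedAddCommGroup E] [NormedSpace ℝ E]
    {F : (ι → ℝ) → E} (hF : Integrable F) :
    HasSum (fun m : ι → ℤ => ∫ x in box 0, F (x + toR m)) (∫ x, F x) := by
  have := hasSum_integral_iUnion (μ := volume) (f := F) (s := (box : (ι → ℤ) → Set (ι → ℝ)))
    measurableSet_box disjoint_box hF.integrableOn
  rw [iUnion_box, setIntegral_univ] at this
  have h2 : (fun m : ι → ℤ => ∫ x in box 0, F (x + toR m)) = fun m : ι → ℤ => ∫ x in box m, F x := by
    funext m
    exact (integral_box_shift F m).symm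
  rw [h2]
  exact this

lemma integral_box_tsum {F : (ι → ℝ) → ℂ} (hF : Integrable F) :
    ∫ x in box 0, ∑' m : ι → ℤ, F (x + toR m) = ∫ x, F x := by
  have h1 : ∀ m : ι → ℤ, Integrable (fun x => F (x + toR m)) (volume.restrict (box 0)) := by
    intro m
    exact (hF.comp_add_right (toR m)).integrableOn
  have h2 : Summable fun m : ι → ℤ => ∫ x in box 0, ‖F (x + toR m)‖ :=
    (hasSum_integral_box hF.norm).summable
  have h3 := hasSum_integral_of_summable_integral_norm h1 h2
  exact h3.unique (hasSum_integral_box hF)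

/-- the character `x ↦ exp (2 π i k·x)` -/
noncomputable def chi (k : ι → ℤ) (x : ι → ℝ) : ℂ :=
  Complex.exp (2 * Real.pi * Complex.I * ∑ i, (k i : ℂ) * (x i : ℂ))

lemma chi_add_toR (k m : ι → ℤ) (x : ι → ℝ) : chi k (x + toR m) = chi k x := by
  unfold chi
  have : (2 * Real.pi * Complex.I * ∑ i, (k i : ℂ) * (((x + toR m) i : ℝ) : ℂ))
      = 2 * Real.pi * Complex.I * (∑ i, (k i : ℂ) * (x i : ℂ)) +
        ((∑ i, k i * m i : ℤ) : ℂ) * (2 * Real.pi * Complex.I) := by
    simp only [Pi.add_apply, toR_apply, Complex.ofReal_add, Complex.ofReal_intCast, mul_add,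
      Finset.sum_add_distrib]
    push_cast
    ring
  rw [this, Complex.exp_add, Complex.exp_int_mul_two_pi_mul_I, mul_one]

lemma mFourier_coe (k : ι → ℤ) (x : ι → ℝ) :
    UnitAddTorus.mFourier k (fun i => (x i : UnitAddCircle)) = chi k x := by
  simp only [UnitAddTorus.mFourier, ContinuousMap.coe_mk, chi, fourier_coe_apply,
    Complex.ofReal_one, div_one]
  rw [← Complex.exp_sum, Finset.mul_sum]
  congr 1
  refine Finset.sum_congr rfl fun i _ => ?_
  ring

lemma norm_chi (k : ι → ℤ) (x : ι → ℝ) : ‖chi k x‖ = 1 := by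
  unfold chi
  have : (2 * Real.pi * Complex.I * ∑ i, (k i : ℂ) * (x i : ℂ))
      = ((2 * Real.pi * ∑ i, (k i : ℝ) * x i : ℝ) : ℂ) * Complex.I := by
    push_cast; ring
  rw [this, Complex.norm_exp_ofReal_mul_I]

lemma continuous_chi (k : ι → ℤ) : Continuous (chi k) := by
  unfold chi; fun_prop

/-- Poisson summation on `ℝ^ι` in pointwise form. -/
theorem poisson_pi {G : (ι → ℝ) → ℂ} (hG : Integrable G)
    (hcont : Continuous fun t : ι → ℝ => ∑' m : ι → ℤ, G (t + toR m))
    (hsum : Summable fun k : ι → ℤ => ∫ t, chi (-k) t * G t) (t : ι → ℝ) :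
    HasSum (fun k : ι → ℤ => (∫ t, chi (-k) t * G t) * chi k t)
      (∑' m : ι → ℤ, G (t + toR m)) := by
  classical
  set h : C(ι → ℝ, ℂ) := ⟨fun t => ∑' m : ι → ℤ, G (t + toR m), hcont⟩ with hh
  let π : (ι → ℝ) → UnitAddTorus ι := Pi.map (fun _ (x : ℝ) => (x : UnitAddCircle))
  have hπ : IsQuotientMap π := by
    refine (IsOpenQuotientMap.piMap fun _ => ?_).isQuotientMap
    exact QuotientAddGroup.isOpenQuotientMap_mk
  let πc : C(ι → ℝ, UnitAddTorus ι) := ⟨π, hπ.continuous⟩
  have hπc : IsQuotientMap πc := hπ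
  have hfac : Function.FactorsThrough h πc := by
    intro x y hxy
    have : ∀ i, ∃ n : ℤ, x i = y i + n := by
      intro i
      have hi : (x i : UnitAddCircle) = (y i : UnitAddCircle) := congrFun hxy i
      obtain ⟨n, hn⟩ := (AddSubgroup.mem_zmultiples_iff.mp
        ((QuotientAddGroup.eq (s := AddSubgroup.zmultiples (1:ℝ))).mp hi.symm))
      refine ⟨n, ?_⟩
      have : (n : ℝ) = -y i + x i := by simpa using hn
      linarith
    choose n hn using this
    have hx : x = y + toR n := by
      funext i; simp [hn i]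
    change (∑' m : ι → ℤ, G (x + toR m)) = ∑' m : ι → ℤ, G (y + toR m)
    rw [hx, ← (Equiv.addLeft n).tsum_eq (fun m => G (y + toR m))]
    refine tsum_congr fun m => ?_
    congr 1
    funext i
    simp [add_assoc]
  let H : C(UnitAddTorus ι, ℂ) := hπc.lift h hfac
  have hH : ∀ x : ι → ℝ, H (fun i => (x i : UnitAddCircle)) = ∑' m : ι → ℤ, G (x + toR m) := by
    intro x
    have := congrArg (fun f : C(ι → ℝ, ℂ) => f x) (hπc.lift_comp h hfac)
    exact this
  have hcoef : ∀ k : ι → ℤ, UnitAddTorus.mFourierCoeff H k = ∫ t, chi (-k) t * G t := by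
    intro k
    rw [UnitAddTorus.mFourierCoeff_eq_integral H k 0]
    have hF : Integrable (fun t => chi (-k) t * G t) := by
      refine hG.bdd_mul (c := 1) (continuous_chi _).aestronglyMeasurable ?_
      exact Eventually.of_forall fun x => (norm_chi _ _).le
    rw [← integral_box_tsum hF]
    have hbox : {x : ι → ℝ | ∀ i, x i ∈ Ioc ((0 : ι → ℝ) i) ((0 : ι → ℝ) i + 1)} = box 0 := by
      ext x; simp [box]
    rw [hbox]
    refine setIntegral_congr_fun (measurableSet_box 0) fun x _ => ?_
    simp only [mFourier_coe, hH, smul_eq_mul]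
    rw [← tsum_mul_left]
    refine tsum_congr fun m => ?_
    rw [chi_add_toR]
  have hs : Summable (UnitAddTorus.mFourierCoeff H) := by
    refine hsum.congr fun k => ?_
    rw [hcoef]
  have := UnitAddTorus.hasSum_mFourier_series_apply_of_summable hs (fun i => (t i : UnitAddCircle))
  rw [hH] at this
  have h4 : (fun k : ι → ℤ => (∫ t, chi (-k) t * G t) * chi k t) =
      fun k => UnitAddTorus.mFourierCoeff H k • UnitAddTorus.mFourier k
        (fun i => (t i : UnitAddCircle)) := by
    funext k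
    rw [hcoef, mFourier_coe, smul_eq_mul]
  rw [h4]
  exact this

end Pool.Agent.Lib.Pd7404b
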