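import Mathlib

open MeasureTheory Module Filter Topology

namespace Pool.Agent.Lib.Pd7404b

variable {V : Type*} [NormedAddCommGroup V] [NormedSpace ℝ V] [FiniteDimensional ℝ V]
variable (L : Submodule ℤ V) [DiscreteTopology L]

/-- Gaussian sums with polynomial weights over a lattice converge. -/
theorem summable_pow_mul_exp (k : ℕ) {c : ℝ} (hc : 0 < c) :
    Summable (fun v : L => ‖(v : V)‖ ^ k * Real.exp (-c * ‖(v : V)‖ ^ 2)) := by
  set N : ℕ := finrank ℤ L + 1 with hN
  have hs : Summable (fun v : L => ‖(v : V)‖⁻¹ ^ N) := by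
    have := ZLattice.summable_norm_pow_inv L N (by omega)
    simpa using this
  -- r^(k+N) * exp(-c r^2) is bounded
  have hb : ∃ C : ℝ, 0 ≤ C ∧ ∀ r : ℝ, 0 ≤ r → r ^ (k + N) * Real.exp (-c * r ^ 2) ≤ C := by
    have hcont : Continuous (fun r : ℝ => r ^ (k + N) * Real.exp (-c * r ^ 2)) := by fun_prop
    have htend : Tendsto (fun r : ℝ => r ^ (k + N) * Real.exp (-c * r ^ 2)) atTop (𝓝 0) := by
      have := (rpow_mul_exp_neg_mul_sq_isLittleO_exp_neg hc ((k + N : ℕ) : ℝ))
      have h2 := this.isBigO.trans_tendsto (g'' := fun r : ℝ => Real.exp (-(1/2) * r)) (by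
        refine Real.tendsto_exp_atBot.comp ?_
        exact Tendsto.const_mul_atTop_of_neg (by norm_num) tendsto_id)
      refine h2.congr' ?_
      filter_upwards [eventually_gt_atTop 0] with r hr
      rw [Real.rpow_natCast]
    obtain ⟨M, hM⟩ := (htend.eventually (ge_mem_nhds (show (0:ℝ) < 1 by norm_num))).exists_forall_of_atTop
    obtain ⟨C, hC⟩ := (isCompact_Icc (a := (0:ℝ)) (b := M)).exists_bound_of_continuousOn hcont.continuousOn
    refine ⟨max C 1, le_max_of_le_right zero_le_one, fun r hr => ?_⟩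
    rcases le_total r M with h | h
    · exact (le_abs_self _).trans ((hC r ⟨hr, h⟩).trans (le_max_left _ _))
    · exact (hM r h).trans (le_max_right _ _)
  obtain ⟨C, hC0, hC⟩ := hb
  -- away from 0
  have hfin : ∀ v : L, v ≠ 0 → ‖‖(v : V)‖ ^ k * Real.exp (-c * ‖(v : V)‖ ^ 2)‖ ≤ C * ‖(v : V)‖⁻¹ ^ N := by
    intro v hv
    have hv' : 0 < ‖(v : V)‖ := norm_pos_iff.mpr (by simpa using hv)
    rw [Real.norm_of_nonneg (by positivity)]
    have := hC ‖(v : V)‖ hv'.le
    rw [inv_pow, ← div_eq_mul_inv, le_div_iff₀ (by positivity)]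
    calc ‖(v : V)‖ ^ k * Real.exp (-c * ‖(v : V)‖ ^ 2) * ‖(v : V)‖ ^ N
        = ‖(v : V)‖ ^ (k + N) * Real.exp (-c * ‖(v : V)‖ ^ 2) := by ring
      _ ≤ C := this
  refine Summable.of_norm_bounded_eventually (hs.mul_left C) ?_
  refine (Set.finite_singleton (0 : L)).subset ?_
  intro v hv
  by_contra h
  exact hv (hfin v h)

end Pool.Agent.Lib.Pd7404b
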