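import Mathlib
import Pool.Agent.Lib.Pd7404b.Summ
import Pool.Agent.Lib.Pd7404b.PoissonPi

open MeasureTheory Module Filter Topology Set
open scoped RealInnerProductSpace

namespace Pool.Agent.Lib.Pd7404b

set_option linter.unusedSectionVars false

variable {V : Type*} [NormedAddCommGroup V] [InnerProductSpace ℝ V] [FiniteDimensional ℝ V]
variable (L : Submodule ℤ V) [DiscreteTopology L]

lemma norm_gauss (a : ℂ) (y : V) :
    ‖Complex.exp (-(Real.pi * a) * ‖y‖ ^ 2)‖ = Real.exp (-(Real.pi * a.re) * ‖y‖ ^ 2) := by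
  rw [Complex.norm_exp]
  congr 1
  have : (-(Real.pi * a) * (‖y‖ : ℂ) ^ 2) = ((-(Real.pi * ‖y‖ ^ 2) : ℝ) : ℂ) * a := by
    push_cast; ring
  rw [this, Complex.re_ofReal_mul]
  ring

lemma gauss_bound {c : ℝ} (hc : 0 < c) {R : ℝ} {y : V} (hy : ‖y‖ ≤ R) (v : V) :
    Real.exp (-c * ‖y + v‖ ^ 2) ≤ Real.exp (c * R ^ 2) * Real.exp (-(c / 2) * ‖v‖ ^ 2) := by
  rw [← Real.exp_add]
  apply Real.exp_le_exp.mpr
  have h1 : ‖v‖ ≤ ‖y + v‖ + ‖y‖ := by
    have := norm_sub_le (y + v) y
    simpa using this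
  have h2 : ‖v‖ ^ 2 ≤ 2 * ‖y + v‖ ^ 2 + 2 * R ^ 2 := by
    have h0 : 0 ≤ ‖v‖ := norm_nonneg _
    have h3 : ‖v‖ ≤ ‖y + v‖ + R := by linarith
    have h4 : ‖v‖ ^ 2 ≤ (‖y + v‖ + R) ^ 2 := pow_le_pow_left₀ h0 h3 2
    nlinarith [sq_nonneg (‖y + v‖ - R)]
  nlinarith [h2, hc]

lemma summable_gauss {a : ℂ} (ha : 0 < a.re) (y : V) :
    Summable fun v : L => Complex.exp (-(Real.pi * a) * ‖y + (v : V)‖ ^ 2) := by
  have hc : 0 < Real.pi * a.re := by positivity
  have h := summable_pow_mul_exp L 0 (half_pos hc)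
  simp only [pow_zero, one_mul] at h
  refine Summable.of_norm_bounded (h.mul_left (Real.exp (Real.pi * a.re * ‖y‖ ^ 2))) fun v => ?_
  rw [norm_gauss]
  exact gauss_bound hc le_rfl _

lemma continuous_gauss_tsum {a : ℂ} (ha : 0 < a.re) :
    Continuous fun y : V => ∑' v : L, Complex.exp (-(Real.pi * a) * ‖y + (v : V)‖ ^ 2) := by
  have hc : 0 < Real.pi * a.re := by positivity
  have h := summable_pow_mul_exp L 0 (half_pos hc)
  simp only [pow_zero, one_mul] at h
  rw [continuous_iff_continuousAt]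
  intro y0
  have hopen : IsOpen {y : V | ‖y‖ < ‖y0‖ + 1} := isOpen_lt continuous_norm continuous_const
  refine (continuousOn_tsum (f := fun (v : L) (y : V) =>
    Complex.exp (-(Real.pi * a) * ‖y + (v : V)‖ ^ 2)) (s := {y : V | ‖y‖ < ‖y0‖ + 1}) ?_
    (h.mul_left (Real.exp (Real.pi * a.re * (‖y0‖ + 1) ^ 2))) ?_).continuousAt
    (hopen.mem_nhds (by simp))
  · intro v
    apply Continuous.continuousOn
    fun_prop
  · intro v y hy
    rw [norm_gauss]
    exact gauss_bound hc (le_of_lt hy) _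

section poisson

variable [MeasurableSpace V] [BorelSpace V]

/-- Poisson summation for Gaussians over a self-dual lattice, up to the covolume constant. -/
theorem poisson_gauss_aux {ι : Type*} [Fintype ι] [IsZLattice ℝ L] (b0 : Basis ι ℤ L)
    (hdual : ∀ w : V, w ∈ L ↔ ∀ v ∈ L, ∃ n : ℤ, ⟪w, v⟫ = n) :
    ∃ C : ℝ, 0 < C ∧ ∀ a : ℂ, 0 < a.re → ∀ y : V,
      HasSum (fun w : L => (C : ℂ) * (1 / a) ^ ((finrank ℝ V : ℂ) / 2) *
        Complex.exp (-(Real.pi * (1 / a)) * ‖(w : V)‖ ^ 2 +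
          2 * Real.pi * Complex.I * ⟪(w : V), y⟫))
        (∑' v : L, Complex.exp (-(Real.pi * a) * ‖y + (v : V)‖ ^ 2)) := by
  classical
  set b : Basis ι ℝ V := b0.ofZLatticeBasis ℝ L with hb
  let φ : (ι → ℝ) ≃ₗ[ℝ] V := b.equivFun.symm
  have hφ : ∀ t : ι → ℝ, φ t = ∑ i, t i • b i := fun t => b.equivFun_symm_apply t
  let φc : (ι → ℝ) ≃L[ℝ] V := φ.toContinuousLinearEquiv
  have hφc : ∀ t, φc t = φ t := fun t => rfl
  have hmeas : MeasurableEmbedding φc := φc.toHomeomorph.measurableEmbedding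
  have : (Measure.map φc volume).IsAddHaarMeasure := φc.isAddHaarMeasure_map volume
  set c : NNReal := Measure.addHaarScalarFactor (Measure.map φc (volume : Measure (ι → ℝ)))
    (volume : Measure V) with hcdef
  have hc : Measure.map φc (volume : Measure (ι → ℝ)) = c • (volume : Measure V) :=
    Measure.isAddLeftInvariant_eq_smul _ _
  have hint : ∀ g : V → ℂ, ∫ t, g (φ t) = (c : ℝ) • ∫ u, g u := by
    intro g
    have h1 : ∫ u, g u ∂(Measure.map φc volume) = ∫ t, g (φc t) := hmeas.integral_map g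
    rw [hc, integral_smul_nnreal_measure] at h1
    exact h1.symm
  have hC : 0 < (c : ℝ) := by
    have := Measure.addHaarScalarFactor_pos_of_isAddHaarMeasure
      (Measure.map φc (volume : Measure (ι → ℝ))) (volume : Measure V)
    exact_mod_cast this
  -- the dual vectors
  let ℓ : (ι → ℤ) → (V →L[ℝ] ℝ) := fun k =>
    LinearMap.toContinuousLinearMap (b.constr ℝ (fun i => (k i : ℝ)))
  let w : (ι → ℤ) → V := fun k => (InnerProductSpace.toDual ℝ V).symm (ℓ k)
  have hw : ∀ k i, ⟪w k, b i⟫ = k i := by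
    intro k i
    simp only [w, InnerProductSpace.toDual_symm_apply, ℓ]
    simp
  have hwφ : ∀ k t, ⟪w k, φ t⟫ = ∑ i, (k i : ℝ) * t i := by
    intro k t
    rw [hφ, inner_sum]
    refine Finset.sum_congr rfl fun i _ => ?_
    rw [inner_smul_right, hw, mul_comm]
  have hbL : ∀ i, b i ∈ L := by
    intro i
    rw [hb, Basis.ofZLatticeBasis_apply]
    exact (b0 i).2
  -- coordinates on L
  let eL : (ι → ℤ) ≃ L := b0.equivFun.symm.toEquiv
  have heL : ∀ m : ι → ℤ, ((eL m : L) : V) = φ (toR m) := by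
    intro m
    have : eL m = ∑ i, m i • b0 i := b0.equivFun_symm_apply m
    rw [this, hφ]
    push_cast
    refine Finset.sum_congr rfl fun i _ => ?_
    rw [hb, Basis.ofZLatticeBasis_apply, toR_apply]
    exact (Int.cast_smul_eq_zsmul ℝ (m i) (b0 i : V)).symm
  have hwL : ∀ k, w k ∈ L := by
    intro k
    rw [hdual]
    intro v hv
    obtain ⟨t0, ht0⟩ := eL.surjective ⟨v, hv⟩
    refine ⟨∑ i, k i * t0 i, ?_⟩
    have h1 : v = φ (toR t0) := by
      rw [← heL, ht0]
    rw [h1, hwφ]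
    push_cast
    simp
  have hwinj : Function.Injective (fun k => (⟨w k, hwL k⟩ : L)) := by
    intro k k' h
    have h' : w k = w k' := congrArg Subtype.val h
    funext i
    have h1 := hw k i
    rw [h', hw] at h1
    exact_mod_cast h1.symm
  have hwsurj : Function.Surjective (fun k => (⟨w k, hwL k⟩ : L)) := by
    intro v
    have h1 : ∀ i, ∃ n : ℤ, ⟪(v : V), b i⟫ = n := fun i => (hdual v).mp v.2 _ (hbL i)
    choose n hn using h1
    refine ⟨n, Subtype.ext ?_⟩
    refine InnerProductSpace.ext_inner_right_basis b fun i => ?_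
    rw [hw, hn]
  let eW : (ι → ℤ) ≃ L := Equiv.ofBijective _ ⟨hwinj, hwsurj⟩
  have heW : ∀ k, ((eW k : L) : V) = w k := fun k => rfl
  refine ⟨(c : ℝ), hC, fun a ha y => ?_⟩
  have ha0 : a ≠ 0 := by rintro rfl; simp at ha
  have hare : 0 < (1 / a).re := by
    rw [one_div, Complex.inv_re]
    exact div_pos ha (Complex.normSq_pos.mpr ha0)
  have hpia : 0 < ((Real.pi : ℂ) * a).re := by
    rw [Complex.re_ofReal_mul]; positivity
  let G : (ι → ℝ) → ℂ := fun t => Complex.exp (-(Real.pi * a) * ‖φ t‖ ^ 2)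
  have hGV : Integrable (fun u : V => Complex.exp (-(Real.pi * a) * ‖u‖ ^ 2)) := by
    have := GaussianFourier.integrable_cexp_neg_mul_sq_norm_add hpia 0 (0 : V)
    simpa using this
  have hG : Integrable G := by
    have h1 : Integrable (fun u : V => Complex.exp (-(Real.pi * a) * ‖u‖ ^ 2))
        (Measure.map φc volume) := by
      rw [hc]; exact hGV.smul_measure_nnreal
    exact (hmeas.integrable_map_iff).mp h1
  have hperiod : ∀ t : ι → ℝ, ∑' m : ι → ℤ, G (t + toR m) =
      ∑' v : L, Complex.exp (-(Real.pi * a) * ‖φ t + (v : V)‖ ^ 2) := by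
    intro t
    rw [← eL.tsum_eq]
    refine tsum_congr fun m => ?_
    rw [heL]
    simp only [G, map_add]
  have hcont : Continuous fun t : ι → ℝ => ∑' m : ι → ℤ, G (t + toR m) := by
    simp_rw [hperiod]
    exact (continuous_gauss_tsum L ha).comp φc.continuous
  have hcoef : ∀ k : ι → ℤ, ∫ t, chi (-k) t * G t = ((c : ℝ) : ℂ) * (1 / a) ^ ((finrank ℝ V : ℂ) / 2) *
      Complex.exp (-(Real.pi * (1 / a)) * ‖w k‖ ^ 2) := by
    intro k
    have h1 : ∀ t, chi (-k) t * G t = Complex.exp (-(Real.pi * a) * ‖φ t‖ ^ 2 +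
        (-(2 * Real.pi * Complex.I)) * ⟪w k, φ t⟫) := by
      intro t
      simp only [chi, G]
      rw [← Complex.exp_add, hwφ]
      congr 1
      push_cast
      simp only [Pi.neg_apply, Int.cast_neg, neg_mul, Finset.sum_neg_distrib]
      ring
    simp_rw [h1]
    rw [hint (fun u => Complex.exp (-(Real.pi * a) * ‖u‖ ^ 2 +
        (-(2 * Real.pi * Complex.I)) * ⟪w k, u⟫))]
    rw [GaussianFourier.integral_cexp_neg_mul_sq_norm_add hpia]
    have hpi : (Real.pi : ℂ) ≠ 0 := by exact_mod_cast Real.pi_ne_zero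
    have h2 : (Real.pi : ℂ) / (Real.pi * a) = 1 / a := by field_simp
    have h3 : (-(2 * Real.pi * Complex.I)) ^ 2 * (‖w k‖ : ℂ) ^ 2 / (4 * (Real.pi * a))
        = -(Real.pi * (1 / a)) * ‖w k‖ ^ 2 := by
      field_simp
      ring_nf
      simp only [Complex.I_sq]
      ring
    rw [h2, h3, Complex.real_smul, mul_assoc]
  have hsummW : Summable fun v : L => Complex.exp (-(Real.pi * (1 / a)) * ‖(v : V)‖ ^ 2) := by
    have := summable_gauss L hare (0 : V)
    simpa using this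
  have hsum : Summable fun k : ι → ℤ => ∫ t, chi (-k) t * G t := by
    simp_rw [hcoef]
    apply Summable.mul_left
    exact (eW.summable_iff (f := fun v : L => Complex.exp (-(Real.pi * (1 / a)) * ‖(v : V)‖ ^ 2))).mpr
      hsummW
  have hmain := poisson_pi hG hcont hsum (φ.symm y)
  rw [hperiod] at hmain
  simp only [LinearEquiv.apply_symm_apply] at hmain
  rw [← eW.hasSum_iff]
  have hfun : ((fun w : L => ((c : ℝ) : ℂ) * (1 / a) ^ ((finrank ℝ V : ℂ) / 2) *
        Complex.exp (-(Real.pi * (1 / a)) * ‖(w : V)‖ ^ 2 +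
          2 * Real.pi * Complex.I * ⟪(w : V), y⟫)) ∘ eW) =
      fun k : ι → ℤ => (∫ t, chi (-k) t * G t) * chi k (φ.symm y) := by
    funext k
    rw [hcoef, Function.comp_apply, heW, Complex.exp_add, ← mul_assoc]
    congr 1
    have h5 : ⟪w k, y⟫ = ∑ i, (k i : ℝ) * (φ.symm y) i := by
      rw [← hwφ, LinearEquiv.apply_symm_apply]
    rw [h5]
    simp only [chi]
    congr 1
    push_cast
    ring
  rw [hfun]
  exact hmain

end poisson

end Pool.Agent.Lib.Pd7404b
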