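import Mathlib
import Pool.Agent.Lib.Pd7404b.Gauss

open MeasureTheory Module Filter Topology Set
open scoped RealInnerProductSpace

namespace Pool.Agent.Lib.Pd7404b

set_option linter.unusedSectionVars false

variable {V : Type*} [NormedAddCommGroup V] [InnerProductSpace ℝ V] [FiniteDimensional ℝ V]
variable (L : Submodule ℤ V) [DiscreteTopology L]

/-- moments of the Gaussian lattice sum -/
noncomputable def M (j : ℕ) (a : ℂ) (x : V) : ℂ :=
  ∑' v : L, Complex.exp (-(Real.pi * a) * ‖(v : V)‖ ^ 2) * (⟪(v : V), x⟫ : ℂ) ^ j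

lemma summable_expM {a : ℂ} (ha : 0 < a.re) (B : ℝ) :
    Summable fun v : L => Real.exp (-(Real.pi * a.re) * ‖(v : V)‖ ^ 2) * Real.exp (B * ‖(v : V)‖) := by
  have hc : 0 < Real.pi * a.re := by positivity
  set c := Real.pi * a.re with hcdef
  have h := summable_pow_mul_exp L 0 (half_pos hc)
  simp only [pow_zero, one_mul] at h
  refine Summable.of_nonneg_of_le (fun v => by positivity) (fun v => ?_)
    (h.mul_left (Real.exp (B ^ 2 / (2 * c))))
  rw [← Real.exp_add, ← Real.exp_add]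
  apply Real.exp_le_exp.mpr
  set r := ‖(v : V)‖
  have : 0 ≤ (B / c - r) ^ 2 * (c / 2) := by positivity
  have h2 : (B / c - r) ^ 2 * (c / 2) = B ^ 2 / (2 * c) - B * r + c / 2 * r ^ 2 := by
    field_simp; ring
  nlinarith

lemma hasSum_norm_EM (a : ℂ) (β : ℂ) (x v : V) :
    HasSum (fun j : ℕ => ‖Complex.exp (-(Real.pi * a) * ‖v‖ ^ 2) *
      ((β * (⟪v, x⟫ : ℂ)) ^ j / (j.factorial : ℂ))‖)
      (Real.exp (-(Real.pi * a.re) * ‖v‖ ^ 2) * Real.exp (‖β * (⟪v, x⟫ : ℂ)‖)) := by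
  have h1 : HasSum (fun j : ℕ => ‖β * (⟪v, x⟫ : ℂ)‖ ^ j / (j.factorial : ℝ))
      (Real.exp (‖β * (⟪v, x⟫ : ℂ)‖)) := by
    have := NormedSpace.expSeries_div_hasSum_exp (𝔸 := ℝ) (‖β * (⟪v, x⟫ : ℂ)‖)
    rwa [← Real.exp_eq_exp_ℝ] at this
  have h2 := h1.mul_left (Real.exp (-(Real.pi * a.re) * ‖v‖ ^ 2))
  have h3 : (fun j : ℕ => ‖Complex.exp (-(Real.pi * a) * ‖v‖ ^ 2) *
      ((β * (⟪v, x⟫ : ℂ)) ^ j / (j.factorial : ℂ))‖) = fun j : ℕ =>
      Real.exp (-(Real.pi * a.re) * ‖v‖ ^ 2) * (‖β * (⟪v, x⟫ : ℂ)‖ ^ j / (j.factorial : ℝ)) := by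
    funext j
    rw [norm_mul, norm_gauss, norm_div, norm_pow, Complex.norm_natCast]
  rw [h3]
  exact h2

lemma summable_EM {a : ℂ} (ha : 0 < a.re) (β : ℂ) (x : V) :
    Summable fun p : L × ℕ => Complex.exp (-(Real.pi * a) * ‖(p.1 : V)‖ ^ 2) *
      ((β * (⟪(p.1 : V), x⟫ : ℂ)) ^ p.2 / (p.2.factorial : ℂ)) := by
  apply Summable.of_norm
  rw [summable_prod_of_nonneg (fun p => norm_nonneg _)]
  refine ⟨fun v => (hasSum_norm_EM a β x v).summable, ?_⟩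
  have : (fun v : L => ∑' j : ℕ, ‖Complex.exp (-(Real.pi * a) * ‖(v : V)‖ ^ 2) *
      ((β * (⟪(v : V), x⟫ : ℂ)) ^ j / (j.factorial : ℂ))‖) = fun v : L =>
      Real.exp (-(Real.pi * a.re) * ‖(v : V)‖ ^ 2) * Real.exp (‖β * (⟪(v : V), x⟫ : ℂ)‖) := by
    funext v
    exact (hasSum_norm_EM a β x v).tsum_eq
  simp only [this]
  refine Summable.of_nonneg_of_le (fun v => by positivity) (fun v => ?_)
    (summable_expM L ha (‖β‖ * ‖x‖))
  refine mul_le_mul_of_nonneg_left (Real.exp_le_exp.mpr ?_) (Real.exp_pos _).le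
  rw [norm_mul, Complex.norm_real, mul_assoc]
  refine mul_le_mul_of_nonneg_left ?_ (norm_nonneg _)
  rw [mul_comm]
  exact norm_inner_le_norm _ _

lemma hasSum_E {a : ℂ} (ha : 0 < a.re) (β : ℂ) (x : V) :
    HasSum (fun j : ℕ => β ^ j / (j.factorial : ℂ) * M L j a x)
      (∑' v : L, Complex.exp (-(Real.pi * a) * ‖(v : V)‖ ^ 2) * Complex.exp (β * ⟪(v : V), x⟫)) := by
  have hs := summable_EM L ha β x
  have h1 : ∀ v : L, HasSum (fun j : ℕ => Complex.exp (-(Real.pi * a) * ‖(v : V)‖ ^ 2) *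
      ((β * (⟪(v : V), x⟫ : ℂ)) ^ j / (j.factorial : ℂ)))
      (Complex.exp (-(Real.pi * a) * ‖(v : V)‖ ^ 2) * Complex.exp (β * ⟪(v : V), x⟫)) := by
    intro v
    have := NormedSpace.expSeries_div_hasSum_exp (𝔸 := ℂ) (β * (⟪(v : V), x⟫ : ℂ))
    rw [← Complex.exp_eq_exp_ℂ] at this
    exact this.mul_left _
  have h2 : (∑' v : L, Complex.exp (-(Real.pi * a) * ‖(v : V)‖ ^ 2) * Complex.exp (β * ⟪(v : V), x⟫))
      = ∑' p : L × ℕ, Complex.exp (-(Real.pi * a) * ‖(p.1 : V)‖ ^ 2) *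
      ((β * (⟪(p.1 : V), x⟫ : ℂ)) ^ p.2 / (p.2.factorial : ℂ)) := by
    rw [hs.tsum_prod]
    exact tsum_congr fun v => (h1 v).tsum_eq.symm
  rw [h2]
  have hs' := hs.prod_symm
  have h3 := hs'.hasSum.prod_fiberwise (fun j => (hs'.prod_factor j).hasSum)
  have h4 : (∑' p : L × ℕ, Complex.exp (-(Real.pi * a) * ‖(p.1 : V)‖ ^ 2) *
      ((β * (⟪(p.1 : V), x⟫ : ℂ)) ^ p.2 / (p.2.factorial : ℂ))) =
      ∑' p : ℕ × L, Complex.exp (-(Real.pi * a) * ‖(p.swap.1 : V)‖ ^ 2) *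
      ((β * (⟪(p.swap.1 : V), x⟫ : ℂ)) ^ p.swap.2 / (p.swap.2.factorial : ℂ)) := by
    rw [← (Equiv.prodComm ℕ L).tsum_eq]
    rfl
  rw [h4]
  convert h3 using 2 with j
  simp only [M]
  rw [← tsum_mul_left]
  refine tsum_congr fun v => ?_
  simp only [Prod.swap]
  ring

/-- leading term extraction -/
lemma leading_bound {c : ℕ → ℂ} (hc : Summable fun j => ‖c j‖) {J : ℕ} (h0 : ∀ j < J, c j = 0)
    {s : ℝ} (hs : |s| ≤ 1) {f : ℂ} (hf : HasSum (fun j => c j * (s : ℂ) ^ j) f) :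
    ‖f - c J * (s : ℂ) ^ J‖ ≤ (∑' j, ‖c j‖) * |s| ^ (J + 1) := by
  have h1 : HasSum (fun j => c j * (s : ℂ) ^ j - if j = J then c J * (s : ℂ) ^ J else 0)
      (f - c J * (s : ℂ) ^ J) := hf.sub (hasSum_ite_eq J _)
  have h2 : ∀ j, ‖c j * (s : ℂ) ^ j - if j = J then c J * (s : ℂ) ^ J else 0‖ ≤
      ‖c j‖ * |s| ^ (J + 1) := by
    intro j
    split_ifs with h
    · subst h
      simp only [sub_self, norm_zero]
      positivity
    · rcases lt_or_gt_of_ne h with h' | h'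
      · rw [h0 j h']; simp
      · rw [sub_zero, norm_mul, norm_pow, Complex.norm_real, Real.norm_eq_abs]
        refine mul_le_mul_of_nonneg_left ?_ (norm_nonneg _)
        exact pow_le_pow_of_le_one (abs_nonneg _) hs h'
  have h3 : HasSum (fun j => ‖c j‖ * |s| ^ (J + 1)) ((∑' j, ‖c j‖) * |s| ^ (J + 1)) :=
    hc.hasSum.mul_right _
  rw [← h1.tsum_eq, ← h3.tsum_eq]
  exact tsum_of_norm_bounded h3.summable.hasSum h2

/-- If `f s = h s * g s` for power series vanishing to order `J`, then the leading coefficients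
agree up to `h 0`. -/
lemma leading_eq {c d : ℕ → ℂ} (hc : Summable fun j => ‖c j‖) (hd : Summable fun j => ‖d j‖)
    {J : ℕ} (hc0 : ∀ j < J, c j = 0) (hd0 : ∀ j < J, d j = 0) {f g h : ℝ → ℂ}
    (hf : ∀ s : ℝ, HasSum (fun j => c j * (s : ℂ) ^ j) (f s))
    (hg : ∀ s : ℝ, HasSum (fun j => d j * (s : ℂ) ^ j) (g s))
    (hh : ContinuousAt h 0) (hfg : ∀ s, f s = h s * g s) : c J = h 0 * d J := by
  have key : ∀ {c : ℕ → ℂ} {f : ℝ → ℂ}, (Summable fun j => ‖c j‖) → (∀ j < J, c j = 0) →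
      (∀ s : ℝ, HasSum (fun j => c j * (s : ℂ) ^ j) (f s)) →
      Tendsto (fun s : ℝ => f s / (s : ℂ) ^ J) (𝓝[≠] 0) (𝓝 (c J)) := by
    intro c f hc hc0 hf
    rw [tendsto_iff_norm_sub_tendsto_zero]
    have hlim : Tendsto (fun s : ℝ => (∑' j, ‖c j‖) * |s|) (𝓝[≠] 0) (𝓝 0) := by
      have : Tendsto (fun s : ℝ => (∑' j, ‖c j‖) * |s|) (𝓝 0) (𝓝 ((∑' j, ‖c j‖) * |0|)) :=
        (continuous_const.mul continuous_abs).tendsto 0
      rw [abs_zero, mul_zero] at this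
      exact this.mono_left nhdsWithin_le_nhds
    refine squeeze_zero' (Eventually.of_forall fun _ => norm_nonneg _) ?_ hlim
    have h1 : ∀ᶠ s : ℝ in 𝓝[≠] 0, |s| ≤ 1 := by
      refine Filter.Eventually.filter_mono nhdsWithin_le_nhds ?_
      have : Metric.closedBall (0 : ℝ) 1 ∈ 𝓝 (0 : ℝ) := Metric.closedBall_mem_nhds _ one_pos
      filter_upwards [this] with s hs
      simpa using hs
    filter_upwards [h1, self_mem_nhdsWithin] with s hs hs0
    have hs0' : (s : ℂ) ≠ 0 := by exact_mod_cast hs0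
    have hb := leading_bound hc hc0 hs (hf s)
    have h2 : f s / (s : ℂ) ^ J - c J = (f s - c J * (s : ℂ) ^ J) / (s : ℂ) ^ J := by
      field_simp
    rw [h2, norm_div, norm_pow, Complex.norm_real, Real.norm_eq_abs]
    have hs1 : 0 < |s| := abs_pos.mpr hs0
    rw [div_le_iff₀ (by positivity)]
    calc _ ≤ _ := hb
      _ = _ := by ring
  have h1 := key hc hc0 hf
  have h2 := key hd hd0 hg
  have h3 : Tendsto (fun s : ℝ => h s * (g s / (s : ℂ) ^ J)) (𝓝[≠] 0) (𝓝 (h 0 * d J)) :=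
    (hh.tendsto.mono_left nhdsWithin_le_nhds).mul h2
  refine tendsto_nhds_unique h1 ?_
  refine h3.congr fun s => ?_
  rw [hfg, mul_div_assoc]

end Pool.Agent.Lib.Pd7404b
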