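import Mathlib
import Pool.Agent.Lib.Pd7404b.Taylor

open MeasureTheory Module Filter Topology Set
open scoped RealInnerProductSpace

namespace Pool.Agent.Lib.Pd7404b

set_option linter.unusedSectionVars false

variable {V : Type*} [NormedAddCommGroup V] [InnerProductSpace ℝ V] [FiniteDimensional ℝ V]
variable (L : Submodule ℤ V) [DiscreteTopology L]

/-- The lattice `L` is self-dual (unimodular). -/
def SelfDual : Prop := ∀ w : V, w ∈ L ↔ ∀ v ∈ L, ∃ n : ℤ, ⟪w, v⟫ = n

section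

variable [MeasurableSpace V] [BorelSpace V]

theorem poisson_gauss [IsZLattice ℝ L] (hdual : SelfDual L) {a : ℂ} (ha : 0 < a.re) (y : V) :
    ∑' v : L, Complex.exp (-(Real.pi * a) * ‖y + (v : V)‖ ^ 2) =
      (1 / a) ^ ((finrank ℝ V : ℂ) / 2) * ∑' w : L,
        Complex.exp (-(Real.pi * (1 / a)) * ‖(w : V)‖ ^ 2) *
          Complex.exp (2 * Real.pi * Complex.I * ⟪(w : V), y⟫) := by
  obtain ⟨C, hC, h⟩ := poisson_gauss_aux L (Module.Free.chooseBasis ℤ L) hdual
  have h1 := (h 1 (by simp) 0).tsum_eq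
  have hreal : ∀ v : L, Complex.exp (-(Real.pi * (1 : ℂ)) * ‖(v : V)‖ ^ 2) =
      ((Real.exp (-(Real.pi) * ‖(v : V)‖ ^ 2) : ℝ) : ℂ) := by
    intro v
    push_cast
    congr 1
    ring
  have hsumm : Summable fun v : L => Real.exp (-(Real.pi) * ‖(v : V)‖ ^ 2) := by
    have := summable_pow_mul_exp L 0 Real.pi_pos
    simpa using this
  have hpos : 0 < ∑' v : L, Real.exp (-(Real.pi) * ‖(v : V)‖ ^ 2) :=
    hsumm.tsum_pos (fun v => (Real.exp_pos _).le) 0 (Real.exp_pos _)
  have hC1 : C = 1 := by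
    simp only [zero_add, inner_zero_right, Complex.ofReal_zero, mul_zero, add_zero, div_one,
      Complex.one_cpow, mul_one] at h1
    rw [tsum_mul_left] at h1
    simp only [mul_one] at hreal
    simp only [hreal] at h1
    rw [← Complex.ofReal_tsum, ← Complex.ofReal_mul] at h1
    have h2 := Complex.ofReal_injective h1
    have h3 : (C - 1) * ∑' v : L, Real.exp (-(Real.pi) * ‖(v : V)‖ ^ 2) = 0 := by linarith
    rcases mul_eq_zero.mp h3 with h4 | h4
    · linarith
    · exact absurd h4 hpos.ne'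
  rw [← (h a ha y).tsum_eq, hC1]
  rw [← tsum_mul_left]
  refine tsum_congr fun w => ?_
  rw [Complex.exp_add]
  simp

theorem M_transf [IsZLattice ℝ L] (hdual : SelfDual L) {m J : ℕ} (hfin : finrank ℝ V = 2 * m)
    {x x' : V} (hx : ‖x‖ = ‖x'‖)
    (hlow : ∀ j < J, ∀ a : ℂ, 0 < a.re → M L j a x = M L j a x') {a : ℂ} (ha : 0 < a.re) :
    (-(2 * Real.pi * a)) ^ J * (M L J a x - M L J a x') =
      (1 / a) ^ m * ((2 * Real.pi * Complex.I) ^ J * (M L J (1 / a) x - M L J (1 / a) x')) := by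
  have ha0 : a ≠ 0 := by rintro rfl; simp at ha
  have hare : 0 < (1 / a).re := by
    rw [one_div, Complex.inv_re]
    exact div_pos ha (Complex.normSq_pos.mpr ha0)
  have hpow : (1 / a) ^ ((finrank ℝ V : ℂ) / 2) = (1 / a) ^ m := by
    rw [hfin, ← Complex.cpow_natCast]
    congr 1
    push_cast
    ring
  -- the key functional equation for each vector
  have hkey : ∀ (z : V) (s : ℝ),
      ∑' v : L, Complex.exp (-(Real.pi * a) * ‖(v : V)‖ ^ 2) *
        Complex.exp ((-(2 * Real.pi * a) * s) * ⟪(v : V), z⟫) =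
      (Complex.exp (Real.pi * a * s ^ 2 * ‖z‖ ^ 2) * (1 / a) ^ m) *
        ∑' w : L, Complex.exp (-(Real.pi * (1 / a)) * ‖(w : V)‖ ^ 2) *
          Complex.exp ((2 * Real.pi * Complex.I * s) * ⟪(w : V), z⟫) := by
    intro z s
    have h1 := poisson_gauss L hdual ha (s • z)
    rw [hpow] at h1
    have h2 : ∀ v : L, Complex.exp (-(Real.pi * a) * ‖s • z + (v : V)‖ ^ 2) =
        Complex.exp (-(Real.pi * a * s ^ 2 * ‖z‖ ^ 2)) *
        (Complex.exp (-(Real.pi * a) * ‖(v : V)‖ ^ 2) *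
        Complex.exp ((-(2 * Real.pi * a) * s) * ⟪(v : V), z⟫)) := by
      intro v
      have h3 : ‖s • z + (v : V)‖ ^ 2 = s ^ 2 * ‖z‖ ^ 2 + 2 * s * ⟪(v : V), z⟫ + ‖(v : V)‖ ^ 2 := by
        rw [norm_add_sq_real, inner_smul_left, norm_smul, mul_pow, Real.norm_eq_abs, sq_abs,
          real_inner_comm]
        simp
        ring
      have h4 : ((‖s • z + (v : V)‖ : ℂ)) ^ 2 =
          s ^ 2 * ‖z‖ ^ 2 + 2 * s * ⟪(v : V), z⟫ + ‖(v : V)‖ ^ 2 := by
        exact_mod_cast congrArg (fun r : ℝ => (r : ℂ)) h3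
      rw [h4, ← Complex.exp_add, ← Complex.exp_add]
      congr 1
      ring
    have h5 : ∀ w : L, Complex.exp (2 * Real.pi * Complex.I * ⟪(w : V), s • z⟫) =
        Complex.exp ((2 * Real.pi * Complex.I * s) * ⟪(w : V), z⟫) := by
      intro w
      rw [inner_smul_right]
      congr 1
      push_cast
      ring
    simp only [h2, h5] at h1
    rw [tsum_mul_left] at h1
    refine Eq.trans ?_ (mul_assoc _ _ _).symm
    rw [← h1, ← mul_assoc (Complex.exp _), ← Complex.exp_add]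
    simp
  have hc : ∀ (b β : ℂ), 0 < b.re → ∀ s : ℝ,
      HasSum (fun j : ℕ => (β ^ j / (j.factorial : ℂ) * (M L j b x - M L j b x')) * (s : ℂ) ^ j)
      ((∑' v : L, Complex.exp (-(Real.pi * b) * ‖(v : V)‖ ^ 2) * Complex.exp ((β * s) * ⟪(v : V), x⟫)) -
       (∑' v : L, Complex.exp (-(Real.pi * b) * ‖(v : V)‖ ^ 2) * Complex.exp ((β * s) * ⟪(v : V), x'⟫))) := by
    intro b β hb s
    have h1 := (hasSum_E L hb (β * s) x).sub (hasSum_E L hb (β * s) x')
    have h2 : (fun j : ℕ => (β ^ j / (j.factorial : ℂ) * (M L j b x - M L j b x')) * (s : ℂ) ^ j) =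
        fun j : ℕ => (β * s) ^ j / (j.factorial : ℂ) * M L j b x -
          (β * s) ^ j / (j.factorial : ℂ) * M L j b x' := by
      funext j
      rw [mul_pow]
      ring
    rw [h2]
    exact h1
  have hsn : ∀ (b β : ℂ), 0 < b.re →
      Summable (fun j : ℕ => ‖β ^ j / (j.factorial : ℂ) * (M L j b x - M L j b x')‖) := by
    intro b β hb
    have := (hc b β hb 1).summable.norm
    simpa using this
  have hvan : ∀ (b β : ℂ), 0 < b.re → ∀ j < J,
      β ^ j / (j.factorial : ℂ) * (M L j b x - M L j b x') = 0 := by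
    intro b β hb j hj
    rw [hlow j hj b hb, sub_self, mul_zero]
  have hfinal := leading_eq (hsn a (-(2 * Real.pi * a)) ha) (hsn (1 / a) (2 * Real.pi * Complex.I) hare)
    (hvan a (-(2 * Real.pi * a)) ha) (hvan (1 / a) (2 * Real.pi * Complex.I) hare)
    (hc a (-(2 * Real.pi * a)) ha) (hc (1 / a) (2 * Real.pi * Complex.I) hare)
    (h := fun s : ℝ => Complex.exp (Real.pi * a * s ^ 2 * ‖x‖ ^ 2) * (1 / a) ^ m)
    (by fun_prop) (by
      intro s
      rw [hkey x s, hkey x' s, ← hx]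
      ring)
  have hJ : ((J.factorial : ℂ)) ≠ 0 := by exact_mod_cast J.factorial_ne_zero
  simp only [Complex.ofReal_zero, ne_eq, OfNat.ofNat_ne_zero, not_false_eq_true, zero_pow, mul_zero,
    zero_mul, Complex.exp_zero, one_mul] at hfinal
  field_simp at hfinal
  field_simp
  linear_combination hfinal

end

end Pool.Agent.Lib.Pd7404b
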