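import Mathlib
import Pool.Agent.Lib.Pd7404b.Transf

open MeasureTheory Module Filter Topology Set
open scoped RealInnerProductSpace

namespace Pool.Agent.Lib.Pd7404b

set_option linter.unusedSectionVars false

variable {V : Type*} [NormedAddCommGroup V] [InnerProductSpace ℝ V] [FiniteDimensional ℝ V]
variable (L : Submodule ℤ V) [DiscreteTopology L]

/-- The lattice `L` is even. -/
def IsEven : Prop := ∀ v ∈ L, ∃ n : ℤ, ‖v‖ ^ 2 = 2 * n

lemma finite_shell (r : ℝ) : {v : V | v ∈ L ∧ ‖v‖ ^ 2 = r}.Finite := by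
  have h_finite : Set.Finite (Metric.closedBall (0 : V) (√r) ∩ (L : Set V)) := by
    change ((_ : Set V) ∩ L.toAddSubgroup).Finite
    have : DiscreteTopology L.toAddSubgroup := (inferInstance : DiscreteTopology L)
    exact Metric.finite_isBounded_inter_isClosed DiscreteTopology.isDiscrete
      Metric.isBounded_closedBall inferInstance
  refine h_finite.subset ?_
  rintro v ⟨hv, hr⟩
  refine ⟨?_, hv⟩
  rw [mem_closedBall_zero_iff, ← hr, Real.sqrt_sq (norm_nonneg _)]

/-- The shell of norm `2 n`. -/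
noncomputable def S (n : ℕ) : Finset V := (finite_shell L (2 * n)).toFinset

lemma mem_S {n : ℕ} {v : V} : v ∈ S L n ↔ v ∈ L ∧ ‖v‖ ^ 2 = 2 * n := by
  simp [S]

/-- The power sum over a shell. -/
noncomputable def A (J n : ℕ) (x : V) : ℝ := ∑ v ∈ S L n, ⟪v, x⟫ ^ J

lemma summable_M (J : ℕ) {a : ℂ} (ha : 0 < a.re) (x : V) :
    Summable fun v : L => Complex.exp (-(Real.pi * a) * ‖(v : V)‖ ^ 2) * (⟪(v : V), x⟫ : ℂ) ^ J := by
  have hc : 0 < Real.pi * a.re := by positivity
  have h := (summable_pow_mul_exp L J hc).mul_left (‖x‖ ^ J)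
  refine Summable.of_norm_bounded h fun v => ?_
  rw [norm_mul, norm_gauss, norm_pow, Complex.norm_real]
  have h1 : ‖⟪(v : V), x⟫‖ ^ J ≤ ‖x‖ ^ J * ‖(v : V)‖ ^ J := by
    rw [← mul_pow]
    refine pow_le_pow_left₀ (norm_nonneg _) ?_ J
    rw [mul_comm]
    exact norm_inner_le_norm _ _
  calc _ ≤ Real.exp (-(Real.pi * a.re) * ‖(v : V)‖ ^ 2) * (‖x‖ ^ J * ‖(v : V)‖ ^ J) :=
        mul_le_mul_of_nonneg_left h1 (Real.exp_pos _).le
    _ = _ := by ring

lemma hasSum_q (heven : IsEven L) (J : ℕ) (x : V) (τ : UpperHalfPlane) :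
    HasSum (fun n : ℕ => ((A L J n x : ℝ) : ℂ) • Function.Periodic.qParam 1 (τ : ℂ) ^ n)
      (M L J (-Complex.I * τ) x) := by
  have ha : 0 < (-Complex.I * (τ : ℂ)).re := by
    simp [τ.im_pos]
  have hκ : ∀ v : L, ∃ n : ℕ, ‖(v : V)‖ ^ 2 = 2 * (n : ℝ) := by
    intro v
    obtain ⟨n, hn⟩ := heven v v.2
    have h0 : (0 : ℝ) ≤ n := by nlinarith [sq_nonneg ‖(v : V)‖]
    have h0' : 0 ≤ n := by exact_mod_cast h0
    refine ⟨n.toNat, ?_⟩
    rw [hn]
    congr 1
    have := Int.toNat_of_nonneg h0'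
    exact_mod_cast this.symm
  choose κ hκ using hκ
  have h1 := (summable_M L J ha x).hasSum.tsum_fiberwise κ
  have h2 : (fun n : ℕ => ((A L J n x : ℝ) : ℂ) • Function.Periodic.qParam 1 (τ : ℂ) ^ n) =
      fun n : ℕ => ∑' b : κ ⁻¹' {n}, Complex.exp (-(Real.pi * (-Complex.I * τ)) * ‖((b : L) : V)‖ ^ 2) *
        (⟪((b : L) : V), x⟫ : ℂ) ^ J := by
    funext n
    have h3 : ∀ b : κ ⁻¹' {n}, Complex.exp (-(Real.pi * (-Complex.I * τ)) * ‖((b : L) : V)‖ ^ 2) *
        (⟪((b : L) : V), x⟫ : ℂ) ^ J =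
        Function.Periodic.qParam 1 (τ : ℂ) ^ n * (⟪((b : L) : V), x⟫ : ℂ) ^ J := by
      intro b
      congr 1
      have hb : κ b = n := b.2
      have h4 : ((‖((b : L) : V)‖ : ℂ)) ^ 2 = 2 * (n : ℂ) := by
        have := hκ b
        rw [hb] at this
        exact_mod_cast congrArg (fun r : ℝ => (r : ℂ)) this
      rw [h4, Function.Periodic.qParam, ← Complex.exp_nat_mul]
      congr 1
      push_cast
      ring
    simp only [h3]
    rw [tsum_mul_left, smul_eq_mul, mul_comm]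
    congr 1
    -- finite sum over the shell
    let e : (κ ⁻¹' {n}) ≃ (S L n : Finset V) :=
      { toFun := fun b => ⟨((b : L) : V), by
          rw [mem_S]
          refine ⟨b.1.2, ?_⟩
          have hb : κ b = n := b.2
          rw [hκ b, hb]⟩
        invFun := fun v => ⟨⟨(v : V), ((mem_S L).mp v.2).1⟩, by
          have h5 := ((mem_S L).mp v.2).2
          have h6 := hκ ⟨(v : V), ((mem_S L).mp v.2).1⟩
          have h7 : (n : ℝ) = (κ ⟨(v : V), ((mem_S L).mp v.2).1⟩ : ℝ) := by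
            have := h5.symm.trans h6
            linarith
          have h8 : n = κ ⟨(v : V), ((mem_S L).mp v.2).1⟩ := by exact_mod_cast h7
          exact h8.symm⟩
        left_inv := fun b => rfl
        right_inv := fun v => rfl }
    have h9 : ∑' b : κ ⁻¹' {n}, (⟪((b : L) : V), x⟫ : ℂ) ^ J =
        ∑' v : (S L n : Finset V), (⟪(v : V), x⟫ : ℂ) ^ J := by
      rw [← e.tsum_eq]
      rfl
    rw [h9, Finset.tsum_subtype (S L n) (fun v => (⟪(v : V), x⟫ : ℂ) ^ J), A]
    push_cast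
    rfl
  rw [h2]
  exact h1

lemma differentiableOn_M (J : ℕ) (x : V) :
    DifferentiableOn ℂ (fun z : ℂ => M L J (-Complex.I * z) x) {z : ℂ | 0 < z.im} := by
  intro z hz
  have hz' : 0 < z.im := hz
  have hopen : IsOpen {w : ℂ | z.im / 2 < w.im} := isOpen_lt continuous_const Complex.continuous_im
  have hc : 0 < Real.pi * (z.im / 2) := by positivity
  have h := (summable_pow_mul_exp L J hc).mul_left (‖x‖ ^ J)
  have key := Complex.differentiableOn_tsum_of_summable_norm
    (F := fun (v : L) (w : ℂ) => Complex.exp (-(Real.pi * (-Complex.I * w)) * ‖(v : V)‖ ^ 2) *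
      (⟪(v : V), x⟫ : ℂ) ^ J) h (fun v => by fun_prop) hopen (by
      intro v w hw
      rw [norm_mul, norm_gauss, norm_pow, Complex.norm_real]
      have h1 : ‖⟪(v : V), x⟫‖ ^ J ≤ ‖x‖ ^ J * ‖(v : V)‖ ^ J := by
        rw [← mul_pow]
        refine pow_le_pow_left₀ (norm_nonneg _) ?_ J
        rw [mul_comm]
        exact norm_inner_le_norm _ _
      have h2 : Real.exp (-(Real.pi * (-Complex.I * w).re) * ‖(v : V)‖ ^ 2) ≤
          Real.exp (-(Real.pi * (z.im / 2)) * ‖(v : V)‖ ^ 2) := by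
        apply Real.exp_le_exp.mpr
        have : (-Complex.I * w).re = w.im := by simp
        rw [this]
        have hw' : z.im / 2 < w.im := hw
        have := Real.pi_pos
        nlinarith [sq_nonneg ‖(v : V)‖, mul_nonneg (mul_nonneg this.le (sub_nonneg.mpr hw'.le))
          (sq_nonneg ‖(v : V)‖)]
      calc _ ≤ Real.exp (-(Real.pi * (z.im / 2)) * ‖(v : V)‖ ^ 2) * (‖x‖ ^ J * ‖(v : V)‖ ^ J) := by
            gcongr
        _ = _ := by ring)
  have hmem : {w : ℂ | z.im / 2 < w.im} ∈ 𝓝 z := hopen.mem_nhds (by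
    change z.im / 2 < z.im
    linarith)
  exact (key.differentiableAt hmem).differentiableWithinAt

end Pool.Agent.Lib.Pd7404b
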