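import Mathlib
import Pool.Agent.Lib.Pd7404b.Modular

open MeasureTheory Module Filter Topology Set
open scoped RealInnerProductSpace MatrixGroups ModularForm

namespace Pool.Agent.Lib.Pd7404b

set_option linter.unusedSectionVars false

variable {V : Type*} [NormedAddCommGroup V] [InnerProductSpace ℝ V] [FiniteDimensional ℝ V]
variable (L : Submodule ℤ V) [DiscreteTopology L]

/-- difference of moments as a function on the upper half plane -/
noncomputable def F (J : ℕ) (x x' : V) (τ : UpperHalfPlane) : ℂ :=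
  M L J (-Complex.I * τ) x - M L J (-Complex.I * τ) x'

lemma hasSum_F (heven : IsEven L) (J : ℕ) (x x' : V) (τ : UpperHalfPlane) :
    HasSum (fun n : ℕ => ((A L J n x - A L J n x' : ℝ) : ℂ) •
      Function.Periodic.qParam 1 (τ : ℂ) ^ n) (F L J x x' τ) := by
  have h := (hasSum_q L heven J x τ).sub (hasSum_q L heven J x' τ)
  have h2 : (fun n : ℕ => ((A L J n x - A L J n x' : ℝ) : ℂ) •
      Function.Periodic.qParam 1 (τ : ℂ) ^ n) = fun n : ℕ =>
      ((A L J n x : ℝ) : ℂ) • Function.Periodic.qParam 1 (τ : ℂ) ^ n -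
      ((A L J n x' : ℝ) : ℂ) • Function.Periodic.qParam 1 (τ : ℂ) ^ n := by
    funext n
    push_cast
    simp only [smul_eq_mul]
    ring
  rw [h2]
  exact h

set_option backward.isDefEq.respectTransparency.types false in
lemma F_T (heven : IsEven L) (J : ℕ) (k : ℤ) (x x' : V) :
    (F L J x x') ∣[k] ModularGroup.T = F L J x x' := by
  ext τ
  rw [ModularForm.SL_slash_apply, UpperHalfPlane.denom, UpperHalfPlane.modular_T_smul,
    ModularGroup.T]
  have h1 : F L J x x' ((1 : ℝ) +ᵥ τ) = F L J x x' τ := by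
    refine (hasSum_F L heven J x x' _).unique ?_
    have h2 := hasSum_F L heven J x x' τ
    have h3 : Function.Periodic.qParam 1 (((1 : ℝ) +ᵥ τ : UpperHalfPlane) : ℂ) =
        Function.Periodic.qParam 1 (τ : ℂ) := by
      simp only [Function.Periodic.qParam, UpperHalfPlane.coe_vadd]
      rw [show 2 * (Real.pi : ℂ) * Complex.I * (((1 : ℝ) : ℂ) + (τ : ℂ)) / ((1 : ℝ) : ℂ) =
        2 * Real.pi * Complex.I * τ / ((1 : ℝ) : ℂ) + 2 * Real.pi * Complex.I by
          push_cast; ring]
      rw [Complex.exp_add, Complex.exp_two_pi_mul_I, mul_one]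
    rw [h3]
    exact h2
  simp [h1]

variable [MeasurableSpace V] [BorelSpace V] [IsZLattice ℝ L]

lemma F_S (hdual : SelfDual L) {m J : ℕ} (hfin : finrank ℝ V = 2 * m) (h4 : 4 ∣ m)
    {x x' : V} (hx : ‖x‖ = ‖x'‖)
    (hlow : ∀ j < J, ∀ a : ℂ, 0 < a.re → M L j a x = M L j a x') :
    (F L J x x') ∣[((m + J : ℕ) : ℤ)] ModularGroup.S = F L J x x' := by
  ext τ
  rw [ModularForm.SL_slash_apply, UpperHalfPlane.modular_S_smul]
  have ha : 0 < (-Complex.I * (τ : ℂ)).re := by
    simp [τ.im_pos]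
  have h1 := M_transf L hdual hfin hx hlow ha
  have hτ : (τ : ℂ) ≠ 0 := UpperHalfPlane.ne_zero τ
  have h2 : F L J x x' (UpperHalfPlane.mk (-(τ : ℂ))⁻¹ τ.im_inv_neg_coe_pos) =
      (τ : ℂ) ^ (m + J) * F L J x x' τ := by
    have h3 : -Complex.I * (((UpperHalfPlane.mk (-(τ : ℂ))⁻¹ τ.im_inv_neg_coe_pos) :
        UpperHalfPlane) : ℂ) = 1 / (-Complex.I * (τ : ℂ)) := by
      rw [UpperHalfPlane.coe_mk]
      field_simp
      exact Complex.I_sq
    rw [F, h3, F]
    obtain ⟨p, hp⟩ := h4
    have hI : Complex.I ^ m = 1 := by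
      rw [hp, pow_mul, Complex.I_pow_four, one_pow]
    have hnI : (-Complex.I) ^ m = 1 := by
      rw [hp, pow_mul]
      have : (-Complex.I) ^ 4 = 1 := by
        rw [neg_pow, Complex.I_pow_four]; norm_num
      rw [this, one_pow]
    have hpi : (2 * (Real.pi : ℂ)) ≠ 0 := by
      have : (Real.pi : ℂ) ≠ 0 := by exact_mod_cast Real.pi_ne_zero
      exact mul_ne_zero two_ne_zero this
    have h5 : (-(2 * (Real.pi : ℂ) * (-Complex.I * τ))) ^ J =
        (2 * Real.pi * Complex.I) ^ J * (τ : ℂ) ^ J := by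
      rw [← mul_pow]
      congr 1
      ring
    have h6 : (1 / (-Complex.I * (τ : ℂ))) ^ m = 1 / (τ : ℂ) ^ m := by
      rw [div_pow, one_pow, mul_pow, hnI, one_mul]
    rw [h5, h6] at h1
    have h7 : (2 * (Real.pi : ℂ) * Complex.I) ^ J ≠ 0 :=
      pow_ne_zero _ (mul_ne_zero hpi Complex.I_ne_zero)
    have h8 : (2 * (Real.pi : ℂ) * Complex.I) ^ J * ((τ : ℂ) ^ J *
        (M L J (-Complex.I * τ) x - M L J (-Complex.I * τ) x')) =
        (2 * (Real.pi : ℂ) * Complex.I) ^ J * (1 / (τ : ℂ) ^ m *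
        (M L J (1 / (-Complex.I * τ)) x - M L J (1 / (-Complex.I * τ)) x')) := by
      linear_combination h1
    have h9 := mul_left_cancel₀ h7 h8
    have h10 : (τ : ℂ) ^ m ≠ 0 := pow_ne_zero _ hτ
    rw [pow_add, mul_assoc, h9]
    field_simp
  rw [h2, ModularGroup.denom_S]
  rw [zpow_neg, zpow_natCast]
  field_simp

open ModularForm SlashInvariantForm in
/-- The difference of moments as a modular form of weight `m + J` and level one. -/
noncomputable def formF (heven : IsEven L) (hdual : SelfDual L) {m J : ℕ}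
    (hfin : finrank ℝ V = 2 * m) (h4 : 4 ∣ m) {x x' : V} (hx : ‖x‖ = ‖x'‖)
    (hlow : ∀ j < J, ∀ a : ℂ, 0 < a.re → M L j a x = M L j a x') :
    ModularForm 𝒮ℒ ((m + J : ℕ) : ℤ) where
  toFun := F L J x x'
  slash_action_eq' B hB := by
    obtain ⟨B, rfl⟩ := hB
    exact slash_action_generators_SL2Z (F_S L hdual hfin h4 hx hlow) (F_T L heven J _ x x') B
  holo' := by
    rw [UpperHalfPlane.mdifferentiable_iff]
    refine ((differentiableOn_M L J x).sub (differentiableOn_M L J x')).congr fun z hz => ?_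
    simp [F, UpperHalfPlane.ofComplex_apply_of_im_pos hz]
  bdd_at_cusps' hc := by
    rw [Subgroup.IsArithmetic.isCusp_iff_isCusp_SL2Z] at hc
    rw [OnePoint.isBoundedAt_iff_forall_SL2Z hc]
    intro γ _
    rw [slash_action_generators_SL2Z (F_S L hdual hfin h4 hx hlow) (F_T L heven J _ x x')]
    exact UpperHalfPlane.isBoundedAtImInfty_of_hasSum_qExpansion one_pos
      (hasSum_F L heven J x x')

lemma formF_coeff (heven : IsEven L) (hdual : SelfDual L) {m J : ℕ}
    (hfin : finrank ℝ V = 2 * m) (h4 : 4 ∣ m) {x x' : V} (hx : ‖x‖ = ‖x'‖)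
    (hlow : ∀ j < J, ∀ a : ℂ, 0 < a.re → M L j a x = M L j a x') (n : ℕ) :
    ((A L J n x - A L J n x' : ℝ) : ℂ) =
      (UpperHalfPlane.qExpansion 1 (formF L heven hdual hfin h4 hx hlow)).coeff n :=
  ModularFormClass.qExpansion_coeff_unique one_pos one_mem_strictPeriods_SL
    (f := formF L heven hdual hfin h4 hx hlow) (hasSum_F L heven J x x') n

/-- No short vectors: every nonzero vector has norm at least `2 r`. -/
def MinNorm (r : ℕ) : Prop := ∀ v ∈ L, v ≠ 0 → (2 * r : ℝ) ≤ ‖v‖ ^ 2

omit [MeasurableSpace V] [BorelSpace V] [IsZLattice ℝ L] in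
lemma A_eq_zero {r : ℕ} (hmin : MinNorm L r) {J n : ℕ} (hJ : J ≠ 0) (hn : n < r) (x : V) :
    A L J n x = 0 := by
  unfold A
  refine Finset.sum_eq_zero fun v hv => ?_
  rw [mem_S] at hv
  by_cases h0 : v = 0
  · rw [h0, inner_zero_left, zero_pow hJ]
  · exfalso
    have h1 := hmin v hv.1 h0
    rw [hv.2] at h1
    have h2 : (r : ℝ) ≤ n := by linarith
    have h3 : r ≤ n := by exact_mod_cast h2
    omega

theorem M_eq (heven : IsEven L) (hdual : SelfDual L) {m r J0 : ℕ}
    (hfin : finrank ℝ V = 2 * m) (h4 : 4 ∣ m) (hmin : MinNorm L r) (hJ0 : (m + J0) / 12 < r) :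
    ∀ J ≤ J0, ∀ x x' : V, ‖x‖ = ‖x'‖ → (∀ a : ℂ, 0 < a.re → M L J a x = M L J a x') ∧
      ∀ n, A L J n x = A L J n x' := by
  intro J
  induction J using Nat.strong_induction_on with
  | h J ih =>
    intro hJ x x' hx
    rcases Nat.eq_zero_or_pos J with h0 | hpos
    · subst h0
      refine ⟨fun a _ => ?_, fun n => ?_⟩
      · simp [M]
      · simp [A]
    · have hlow : ∀ j < J, ∀ a : ℂ, 0 < a.re → M L j a x = M L j a x' := fun j hj =>
        (ih j hj (by omega) x x' hx).1
      have hform : formF L heven hdual hfin h4 hx hlow = 0 := by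
        apply ModularForm.sturm_bound_levelOne_nat
        have h1 : (r : ℕ∞) ≤ (UpperHalfPlane.qExpansion 1
            (formF L heven hdual hfin h4 hx hlow)).order := by
          refine PowerSeries.nat_le_order _ _ fun i hi => ?_
          rw [← formF_coeff, A_eq_zero L hmin hpos.ne' hi, A_eq_zero L hmin hpos.ne' hi]
          simp
        refine lt_of_lt_of_le ?_ h1
        have h2 : (m + J) / 12 ≤ (m + J0) / 12 := Nat.div_le_div_right (by omega)
        exact_mod_cast lt_of_le_of_lt h2 hJ0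
      refine ⟨fun a ha => ?_, fun n => ?_⟩
      · let τ : UpperHalfPlane := ⟨Complex.I * a, by simpa using ha⟩
        have h1 : F L J x x' τ = 0 := by
          exact DFunLike.congr_fun hform τ
        have h2 : -Complex.I * (τ : ℂ) = a := by
          change -Complex.I * (Complex.I * a) = a
          rw [← mul_assoc, neg_mul, Complex.I_mul_I]
          ring
        rw [F, h2] at h1
        exact sub_eq_zero.mp h1
      · have h1 := formF_coeff L heven hdual hfin h4 hx hlow n
        rw [hform] at h1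
        have h2 : UpperHalfPlane.qExpansion 1 (⇑(0 : ModularForm 𝒮ℒ ((m + J : ℕ) : ℤ))) = 0 :=
          UpperHalfPlane.qExpansion_zero 1
        rw [h2] at h1
        simp only [map_zero] at h1
        have h3 : A L J n x - A L J n x' = 0 := by exact_mod_cast h1
        linarith

end Pool.Agent.Lib.Pd7404b
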