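import Mathlib
import Pool.Agent.Lib.Pd7404b.Design

open Module
open scoped RealInnerProductSpace

namespace Pool.Agent.Lib.Pd7404b

set_option linter.unusedSectionVars false

variable {V : Type*} [NormedAddCommGroup V] [InnerProductSpace ℝ V] [FiniteDimensional ℝ V]
variable (L : Submodule ℤ V) [DiscreteTopology L]

lemma A_smul (J n : ℕ) (c : ℝ) (x : V) : A L J n (c • x) = c ^ J * A L J n x := by
  simp only [A, inner_smul_right, mul_pow, Finset.mul_sum]

/-- coefficient extraction: if `∑ (α v + t β v)^(2i) = c (1+t²)^i` for all `t`, then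
`(2i-1) ∑ α^(2i-2) β² = c`. -/
lemma coeff_extract {ι : Type*} (s : Finset ι) (α β : ι → ℝ) (i : ℕ) (c : ℝ)
    (h : ∀ t : ℝ, ∑ v ∈ s, (α v + t * β v) ^ (2 * (i + 1)) = c * (1 + t ^ 2) ^ (i + 1)) :
    (2 * i + 1) * ∑ v ∈ s, α v ^ (2 * i) * β v ^ 2 = c := by
  open Polynomial in
  set P : ℝ[X] := ∑ v ∈ s, (C (α v) + C (β v) * X) ^ (2 * (i + 1)) with hP
  open Polynomial in
  set Q : ℝ[X] := C c * (1 + X ^ 2) ^ (i + 1) with hQ
  have hPQ : P = Q := by
    apply Polynomial.funext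
    intro t
    have := h t
    simp only [hP, hQ, Polynomial.eval_finsetSum, Polynomial.eval_pow, Polynomial.eval_add,
      Polynomial.eval_C, Polynomial.eval_mul, Polynomial.eval_X, Polynomial.eval_one]
    rw [← this]
    exact Finset.sum_congr rfl fun v _ => by rw [mul_comm (β v) t]
  have h2 : Polynomial.eval 0 (Polynomial.derivative (Polynomial.derivative P)) =
      Polynomial.eval 0 (Polynomial.derivative (Polynomial.derivative Q)) := by rw [hPQ]
  have h3 : Polynomial.eval 0 (Polynomial.derivative (Polynomial.derivative P)) =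
      (2 * i + 2) * (2 * i + 1) * ∑ v ∈ s, α v ^ (2 * i) * β v ^ 2 := by
    simp only [hP, Polynomial.derivative_sum, Polynomial.eval_finsetSum, Finset.mul_sum]
    refine Finset.sum_congr rfl fun v _ => ?_
    have e1 : 2 * (i + 1) - 1 = 2 * i + 1 := by omega
    simp only [Polynomial.derivative_pow, Polynomial.derivative_add, Polynomial.derivative_C,
      Polynomial.derivative_mul, Polynomial.derivative_X, e1]
    simp
    ring
  have h4 : Polynomial.eval 0 (Polynomial.derivative (Polynomial.derivative Q)) =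
      (2 * i + 2) * c := by
    simp only [hQ, Polynomial.derivative_pow, Polynomial.derivative_add, Polynomial.derivative_C,
      Polynomial.derivative_mul, Polynomial.derivative_X, Polynomial.derivative_one]
    simp
    ring
  rw [h3, h4, mul_assoc] at h2
  have h5 : (2 * (i : ℝ) + 2) ≠ 0 := by positivity
  exact mul_left_cancel₀ h5 h2

/-- The zonal recurrence. -/
lemma A_rec {J0 n : ℕ}
    (hA : ∀ J ≤ J0, ∀ x x' : V, ‖x‖ = ‖x'‖ → A L J n x = A L J n x')
    {i : ℕ} (hi : 2 * (i + 1) ≤ J0) (x : V) (hV : 0 < finrank ℝ V) :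
    ((finrank ℝ V : ℝ) + 2 * i) * A L (2 * (i + 1)) n x =
      (2 * i + 1) * (2 * n) * ‖x‖ ^ 2 * A L (2 * i) n x := by
  classical
  set d := finrank ℝ V with hd
  let b := stdOrthonormalBasis ℝ V
  let j0 : Fin d := ⟨0, hV⟩
  have hb : ∀ j, ‖b j‖ = 1 := fun j => b.orthonormal.1 j
  have hx : ∀ J ≤ J0, A L J n x = ‖x‖ ^ J * A L J n (b j0) := by
    intro J hJ
    rw [← A_smul]
    apply hA J hJ
    rw [norm_smul, hb, mul_one, norm_norm]
  set a := A L (2 * (i + 1)) n (b j0) with ha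
  have key : ∀ j, j ≠ j0 → (2 * i + 1) * ∑ v ∈ S L n, ⟪v, b j0⟫ ^ (2 * i) * ⟪v, b j⟫ ^ 2 = a := by
    intro j hj
    apply coeff_extract
    intro t
    have h1 : A L (2 * (i + 1)) n (b j0 + t • b j) =
        ‖b j0 + t • b j‖ ^ (2 * (i + 1)) * a := by
      rw [ha, ← A_smul]
      apply hA _ hi
      rw [norm_smul, hb, mul_one, norm_norm]
    have h2 : ‖b j0 + t • b j‖ ^ 2 = 1 + t ^ 2 := by
      rw [norm_add_sq_real, norm_smul, hb, hb, inner_smul_right, b.orthonormal.2 hj.symm]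
      simp
    rw [pow_mul, h2] at h1
    rw [mul_comm a, ← h1, A]
    refine Finset.sum_congr rfl fun v _ => ?_
    rw [inner_add_right, inner_smul_right]
  have hsum : ∑ j, ((2 * (i : ℝ) + 1) * ∑ v ∈ S L n, ⟪v, b j0⟫ ^ (2 * i) * ⟪v, b j⟫ ^ 2) =
      (2 * i + 1) * (2 * n) * A L (2 * i) n (b j0) := by
    rw [← Finset.mul_sum, Finset.sum_comm, mul_assoc]
    congr 1
    rw [A, Finset.mul_sum]
    refine Finset.sum_congr rfl fun v hv => ?_
    rw [← Finset.mul_sum]
    have h3 : ∑ j, ⟪v, b j⟫ ^ 2 = ‖v‖ ^ 2 := by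
      have := b.sum_sq_inner_left v
      simpa using this
    rw [h3, ((mem_S L).mp hv).2, mul_comm]
  have hsplit : ∑ j, ((2 * (i : ℝ) + 1) * ∑ v ∈ S L n, ⟪v, b j0⟫ ^ (2 * i) * ⟪v, b j⟫ ^ 2) =
      (2 * i + 1) * a + (d - 1) * a := by
    rw [← Finset.add_sum_erase _ _ (Finset.mem_univ j0)]
    congr 1
    · congr 1
      rw [ha, A]
      refine Finset.sum_congr rfl fun v _ => ?_
      ring
    · rw [Finset.sum_congr rfl (fun j hj => key j (Finset.ne_of_mem_erase hj))]
      rw [Finset.sum_const, Finset.card_erase_of_mem (Finset.mem_univ _), Finset.card_univ,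
        Fintype.card_fin, nsmul_eq_mul, Nat.cast_sub (by omega)]
      simp
  have hmain : ((d : ℝ) + 2 * i) * a = (2 * i + 1) * (2 * n) * A L (2 * i) n (b j0) := by
    rw [← hsum, hsplit]; ring
  rw [hx _ hi, hx (2 * i) (by omega), ← ha]
  have : ‖x‖ ^ (2 * (i + 1)) = ‖x‖ ^ 2 * ‖x‖ ^ (2 * i) := by ring
  rw [this]
  linear_combination (‖x‖ ^ 2 * ‖x‖ ^ (2 * i)) * hmain

end Pool.Agent.Lib.Pd7404b
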